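import Mathlib

/-! GL block DIR: primes with given quadratic symbols (Chinese remainder theorem and Dirichlet). -/

set_option autoImplicit false

namespace Pool.Agent.GL

/-- A number with a given symbol modulo one odd prime. -/
theorem dir_one (p : ℕ) (hp : p.Prime) (h2 : p ≠ 2) (e : ℤ) (he : e = 1 ∨ e = -1) :
    ∃ a : ℕ, jacobiSym (a : ℤ) p = e := by
  have : Fact p.Prime := ⟨hp⟩
  rcases he with rfl | rfl
  · exact ⟨1, by simp⟩
  · obtain ⟨z, hz⟩ := FiniteField.exists_nonsquare (F := ZMod p) (by rwa [ZMod.ringChar_zmod_n])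
    refine ⟨z.val, ?_⟩
    rw [← jacobiSym.legendreSym.to_jacobiSym, legendreSym.eq_neg_one_iff', ZMod.natCast_zmod_val]
    exact hz

theorem dir_mod {x y : ℕ} {p : ℕ} (h : x ≡ y [MOD p]) : jacobiSym (x : ℤ) p = jacobiSym (y : ℤ) p := by
  refine jacobiSym.mod_left' ?_
  have h' : x % p = y % p := h
  exact_mod_cast h'

/-- The Chinese remainder theorem. -/
theorem dir_crt (F : Finset ℕ) (hF : ∀ p ∈ F, p.Prime ∧ p ≠ 2) (ε : ℕ → ℤ)
    (hε : ∀ p, ε p = 1 ∨ ε p = -1) (s : ℕ) :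
    ∃ x : ℕ, x % 8 = s % 8 ∧ ∀ p ∈ F, jacobiSym (x : ℤ) p = ε p := by
  classical
  induction F using Finset.induction_on with
  | empty => exact ⟨s, rfl, fun p hp => absurd hp (Finset.notMem_empty p)⟩
  | insert p F hpF ih =>
    obtain ⟨x, hx, hx'⟩ := ih fun q hq => hF q (Finset.mem_insert_of_mem hq)
    obtain ⟨hp, hp2⟩ := hF p (Finset.mem_insert_self _ _)
    obtain ⟨a, ha⟩ := dir_one p hp hp2 (ε p) (hε p)
    have hc : Nat.Coprime (8 * ∏ q ∈ F, q) p := by
      refine Nat.Coprime.mul_left ?_ ?_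
      · have h8 : (8 : ℕ) = 2 ^ 3 := rfl
        rw [h8]
        exact Nat.Coprime.pow_left 3 ((Nat.coprime_primes Nat.prime_two hp).2 (Ne.symm hp2))
      · refine Nat.Coprime.prod_left fun q hq => ?_
        refine (Nat.coprime_primes (hF q (Finset.mem_insert_of_mem hq)).1 hp).2 ?_
        rintro rfl
        exact hpF hq
    obtain ⟨y, hy1, hy2⟩ := Nat.chineseRemainder hc x a
    refine ⟨y, ?_, ?_⟩
    · rw [← hx]
      exact hy1.of_mul_right _
    · intro q hq
      rcases Finset.mem_insert.1 hq with rfl | hq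
      · rw [dir_mod hy2, ha]
      · rw [dir_mod (hy1.of_dvd (Dvd.dvd.mul_left (Finset.dvd_prod_of_mem _ hq) 8)), hx' q hq]

/-- DIR : primes with given symbols (CRT + Dirichlet) -/
theorem dir (n : ℕ) (hn : Squarefree n) (ho : n % 2 = 1) (ε : ℕ → ℤ) (hε : ∀ p, ε p = 1 ∨ ε p = -1) (s : ℕ)
    (hs : s % 2 = 1) : ∃ l : ℕ, l.Prime ∧ 2 * n < l ∧ l % 8 = s % 8 ∧
      ∀ p : ℕ, p.Prime → p ∣ n → jacobiSym l p = ε p := by
  have hn0 : n ≠ 0 := hn.ne_zero
  have hF : ∀ p ∈ n.primeFactors, p.Prime ∧ p ≠ 2 := by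
    intro p hp
    refine ⟨Nat.prime_of_mem_primeFactors hp, ?_⟩
    rintro rfl
    have := Nat.dvd_of_mem_primeFactors hp
    omega
  obtain ⟨x, hx, hx'⟩ := dir_crt n.primeFactors hF ε hε s
  have hc : Nat.Coprime x (8 * ∏ q ∈ n.primeFactors, q) := by
    refine Nat.Coprime.mul_right ?_ ?_
    · have h8 : (8 : ℕ) = 2 ^ 3 := rfl
      rw [h8]
      refine Nat.Coprime.pow_right 3 ?_
      rw [Nat.coprime_two_right, Nat.odd_iff]
      omega
    · refine Nat.Coprime.prod_right fun q hq => ?_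
      have hq' := Nat.prime_of_mem_primeFactors hq
      rw [Nat.coprime_comm, hq'.coprime_iff_not_dvd]
      intro hd
      have : NeZero q := ⟨hq'.ne_zero⟩
      have h0 : jacobiSym (x : ℤ) q = 0 := by
        rw [jacobiSym.eq_zero_iff_not_coprime]
        intro hg
        have : q ∣ 1 := by
          rw [← hg]
          have h1 : ((x : ℤ)).gcd q = Nat.gcd x q := rfl
          rw [h1]
          exact Nat.dvd_gcd hd dvd_rfl
        exact hq'.one_lt.ne' (Nat.dvd_one.1 this)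
      rw [hx' q hq] at h0
      rcases hε q with h | h <;> rw [h] at h0 <;> exact absurd h0 (by decide)
  obtain ⟨l, hl, hlp, hlm⟩ := Nat.forall_exists_prime_gt_and_modEq (2 * n)
    (q := 8 * ∏ q ∈ n.primeFactors, q) (a := x) (by
      refine mul_ne_zero (by decide) (Finset.prod_ne_zero_iff.2 fun q hq => ?_)
      exact (Nat.prime_of_mem_primeFactors hq).ne_zero) hc
  refine ⟨l, hlp, hl, ?_, ?_⟩
  · rw [← hx]
    exact hlm.of_mul_right _
  · intro p hp hpn
    have hm : p ∈ n.primeFactors := Nat.mem_primeFactors.2 ⟨hp, hpn, hn0⟩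
    rw [dir_mod (hlm.of_dvd (Dvd.dvd.mul_left (Finset.dvd_prod_of_mem _ hm) 8)), hx' p hm]

end Pool.Agent.GL
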